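import Pool.Agent.Helper79.CDE.Lower
import Pool.Agent.Helper74.CL.AdmFam

/-!
Certificates for upper bounds of commutator lengths: a word `a^e₁ b^± a^e₂ b^± ⋯ a^t` and a list of
moves `A u B v C u⁻¹ D v⁻¹ E ↦ A D C B E`, each of which costs one commutator.
-/

set_option autoImplicit false

namespace H79CDE

open H74CL (ga gb PC wd Bound Adm)

section
variable {G : Type*} [Group G]

/-- the move -/
lemma pc_move (A u B v C D E : G) (n : ℕ) (h : PC n (A * D * C * B * E)) :
    PC (n + 1) (A * u * B * v * C * u⁻¹ * D * v⁻¹ * E) := by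
  have e : A * u * B * v * C * u⁻¹ * D * v⁻¹ * E =
      (A * D) * ((D⁻¹ * u * C⁻¹) * (C * B * v) * (D⁻¹ * u * C⁻¹)⁻¹ * (C * B * v)⁻¹) *
        (A * D)⁻¹ * (A * D * C * B * E) := by
    group
  rw [e, add_comm n 1]
  exact ((PC.one _ _).conj _).mul h

end

/-- words `a^e₁ b^± a^e₂ b^± ⋯ a^t` -/
abbrev W := List (ℤ × Bool) × ℤ

/-- the letter `b` or `b⁻¹` -/
def bl (s : Bool) : FreeGroup (Fin 2) := if s then gb else gb⁻¹

lemma bl_not (s : Bool) : bl (!s) = (bl s)⁻¹ := by cases s <;> simp [bl]

/-- the value of a list -/
def vl (L : List (ℤ × Bool)) : FreeGroup (Fin 2) := (L.map (fun p => ga ^ p.1 * bl p.2)).prod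

/-- the value of a word -/
def val (w : W) : FreeGroup (Fin 2) := vl w.1 * ga ^ w.2

lemma vl_nil : vl [] = 1 := rfl

lemma vl_cons (p : ℤ × Bool) (L : List (ℤ × Bool)) : vl (p :: L) = ga ^ p.1 * bl p.2 * vl L := by
  simp [vl]

lemma vl_append (L L' : List (ℤ × Bool)) : vl (L ++ L') = vl L * vl L' := by simp [vl]

/-- concatenation -/
def cat (v w : W) : W :=
  match w.1 with
  | [] => (v.1, v.2 + w.2)
  | p :: r => (v.1 ++ (v.2 + p.1, p.2) :: r, w.2)

lemma val_cat (v w : W) : val (cat v w) = val v * val w := by
  obtain ⟨L, t⟩ := w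
  cases L with
  | nil => simp only [cat, val, vl_nil, zpow_add]; group
  | cons p r => simp only [cat, val, vl_append, vl_cons, zpow_add]; group

/-- prefixing a syllable, with cancellation -/
def push (p : ℤ × Bool) (w : W) : W :=
  match w.1 with
  | [] => ([p], w.2)
  | q :: r => if q.1 = 0 ∧ q.2 = !p.2 then cat ([], p.1) (r, w.2) else (p :: q :: r, w.2)

lemma val_push (p : ℤ × Bool) (w : W) : val (push p w) = ga ^ p.1 * bl p.2 * val w := by
  obtain ⟨L, t⟩ := w
  cases L with
  | nil => simp only [push, val, vl_nil, vl_cons]; group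
  | cons q r =>
    simp only [push]
    split_ifs with h
    · rw [val_cat]
      simp only [val, vl_nil, vl_cons, h.1, h.2, bl_not, zpow_zero]
      group
    · simp only [val, vl_cons]; group

/-- free reduction -/
def rd (w : W) : W := w.1.foldr push ([], w.2)

lemma val_rd (w : W) : val (rd w) = val w := by
  obtain ⟨L, t⟩ := w
  simp only [rd]
  induction L with
  | nil => rfl
  | cons p L ih =>
    rw [List.foldr_cons, val_push, ih]
    simp only [val, vl_cons]; group

/-- the inverse -/
def wi : List (ℤ × Bool) → ℤ → W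
  | [], t => ([], -t)
  | p :: L, t => cat (wi L t) ([(0, !p.2)], -p.1)

lemma val_wi (L : List (ℤ × Bool)) (t : ℤ) : val (wi L t) = (val (L, t))⁻¹ := by
  induction L with
  | nil => simp [wi, val, vl_nil]
  | cons p L ih =>
    rw [wi, val_cat, ih]
    simp only [val, vl_cons, vl_nil, bl_not, zpow_zero, zpow_neg]
    group

/-- the move at the letters `i`, `i + j + 1`, `i + j + k + 2`, `i + j + k + l + 3` -/
def swp (i j k l : ℕ) (w : W) : Option W :=
  match w.1.drop i with
  | [] => none
  | p1 :: L1 => match L1.drop j with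
    | [] => none
    | p2 :: L2 => match L2.drop k with
      | [] => none
      | p3 :: L3 => match L3.drop l with
        | [] => none
        | p4 :: L4 => if p3.2 = !p1.2 ∧ p4.2 = !p2.2 then
            some (cat (w.1.take i, p1.1) (cat (L3.take l, p4.1) (cat (L2.take k, p3.1)
              (cat (L1.take j, p2.1) (L4, w.2)))))
          else none

lemma drop_split (i : ℕ) (L : List (ℤ × Bool)) (p : ℤ × Bool) (r : List (ℤ × Bool))
    (h : L.drop i = p :: r) : vl L = vl (L.take i) * ga ^ p.1 * bl p.2 * vl r := by
  conv_lhs => rw [← List.take_append_drop i L, h, vl_append, vl_cons]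
  group

lemma swp_spec (i j k l : ℕ) (w w' : W) (h : swp i j k l w = some w') (n : ℕ)
    (hn : PC n (val w')) : PC (n + 1) (val w) := by
  unfold swp at h
  split at h
  · exact absurd h (by simp)
  · rename_i p1 L1 h1
    split at h
    · exact absurd h (by simp)
    · rename_i p2 L2 h2
      split at h
      · exact absurd h (by simp)
      · rename_i p3 L3 h3
        split at h
        · exact absurd h (by simp)
        · rename_i p4 L4 h4
          split_ifs at h with h5
          simp only [Option.some.injEq] at h
          rw [← h, val_cat, val_cat, val_cat, val_cat] at hn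
          have e : val w = (vl (w.1.take i) * ga ^ p1.1) * bl p1.2 * (vl (L1.take j) * ga ^ p2.1) *
              bl p2.2 * (vl (L2.take k) * ga ^ p3.1) * (bl p1.2)⁻¹ *
              (vl (L3.take l) * ga ^ p4.1) * (bl p2.2)⁻¹ * (vl L4 * ga ^ w.2) := by
            rw [val, drop_split i w.1 p1 L1 h1, drop_split j L1 p2 L2 h2, drop_split k L2 p3 L3 h3,
              drop_split l L3 p4 L4 h4, h5.1, h5.2, bl_not, bl_not]
            group
          rw [e]
          apply pc_move
          have e2 : (vl (w.1.take i) * ga ^ p1.1) * (vl (L3.take l) * ga ^ p4.1) *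
              (vl (L2.take k) * ga ^ p3.1) * (vl (L1.take j) * ga ^ p2.1) * (vl L4 * ga ^ w.2) =
              val (w.1.take i, p1.1) * (val (L3.take l, p4.1) * (val (L2.take k, p3.1) *
                (val (L1.take j, p2.1) * val (L4, w.2)))) := by
            simp only [val]; group
          rw [e2]
          exact hn

/-- a list of moves -/
def runC : List (ℕ × ℕ × ℕ × ℕ) → W → Option W
  | [], w => some w
  | c :: cs, w => match swp c.1 c.2.1 c.2.2.1 c.2.2.2 w with
    | none => none
    | some w' => runC cs (rd w')

lemma runC_spec (cs : List (ℕ × ℕ × ℕ × ℕ)) : ∀ (w w' : W), runC cs w = some w' → ∀ n,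
    PC n (val w') → PC (cs.length + n) (val w) := by
  induction cs with
  | nil =>
    intro w w' h n hn
    simp only [runC, Option.some.injEq] at h
    subst h
    simpa using hn
  | cons c cs ih =>
    intro w w' h n hn
    rw [runC] at h
    split at h
    · exact absurd h (by simp)
    · rename_i w1 h1
      have h2 := ih _ _ h n hn
      rw [val_rd] at h2
      have h3 := swp_spec _ _ _ _ _ _ h1 _ h2
      rw [List.length_cons]
      have e : cs.length + 1 + n = cs.length + n + 1 := by ring
      rw [e]
      exact h3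

/-- the last check: after conjugation by the prefix of length `r` the word is a commutator
`P a^k P⁻¹ a^(-k)` -/
def fin (r : ℕ) (w : W) : Bool :=
  let w' := rd (cat (wi (w.1.take r) 0) (cat w (w.1.take r, 0)))
  let h := w'.1.length / 2
  match w'.1.drop h with
  | [] => false
  | p :: _ => decide (rd (cat (cat (w'.1.take h, p.1) (wi (w'.1.take h) 0)) ([], -p.1)) = w')

lemma fin_spec (r : ℕ) (w : W) (h : fin r w = true) : PC 1 (val w) := by
  unfold fin at h
  simp only at h
  set c : W := (w.1.take r, 0) with hc
  set w' := rd (cat (wi (w.1.take r) 0) (cat w (w.1.take r, 0))) with hw'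
  have e1 : val w' = (val c)⁻¹ * val w * val c := by
    rw [hw', val_rd, val_cat, val_cat, val_wi, mul_assoc]
  split at h
  · exact absurd h (by simp)
  · rename_i p L hp
    have h2 := of_decide_eq_true h
    have e2 : val w' = val (w'.1.take (w'.1.length / 2), 0) * ga ^ p.1 *
        (val (w'.1.take (w'.1.length / 2), 0))⁻¹ * (ga ^ p.1)⁻¹ := by
      rw [← h2, val_rd, val_cat, val_cat, val_wi, h2]
      simp only [val, vl_nil, zpow_zero, zpow_neg]
      group
    have e3 : val w = val c * (val w') * (val c)⁻¹ := by rw [e1]; group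
    rw [e3, e2]
    exact (PC.one _ _).conj _

/-- the check of a certificate -/
def chk (cs : List (ℕ × ℕ × ℕ × ℕ)) (r : ℕ) (w : W) : Bool :=
  match runC cs (rd w) with
  | none => false
  | some w' => fin r w'

lemma chk_spec (cs : List (ℕ × ℕ × ℕ × ℕ)) (r : ℕ) (w : W) (h : chk cs r w = true) :
    PC (cs.length + 1) (val w) := by
  unfold chk at h
  split at h
  · exact absurd h (by simp)
  · rename_i w' hw'
    have := runC_spec cs _ _ hw' 1 (fin_spec r w' h)
    rwa [val_rd] at this

/-- the letters of a list of syllables -/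
def wl (E : List (ℤ × ℤ)) : List (ℤ × Bool) := E.flatMap (fun t => [(t.1, true), (t.2, false)])

lemma vl_wl (E : List (ℤ × ℤ)) : vl (wl E) = wd E := by
  induction E with
  | nil => rfl
  | cons t E ih =>
    have e : wl (t :: E) = (t.1, true) :: (t.2, false) :: wl E := rfl
    rw [e, vl_cons, vl_cons, ih, H74CL.wd_cons, conj_zpow]
    simp only [bl, if_true, Bool.false_eq_true, if_false]
    group

/-! ### the bounds for the number of zero sum submultisets -/

lemma bound_of (T : Multiset ℤ) (p : ℕ) (hp : 1 ≤ p) (c : ℤ) (hc : IsCoprime (p : ℤ) c)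
    (h : ∀ v ∈ T, v = c ∨ ((p : ℤ) ∣ v ∧ v * c < 0)) : Bound T (T.count c / p) := by
  classical
  intro F hF hFT
  have key : ∀ M ∈ F, p ≤ M.count c := by
    intro M hM
    have hMT : M ≤ T := (Multiset.le_sum_of_mem hM).trans hFT
    obtain ⟨hM0, hMs⟩ := hF M hM
    have h1 : M = M.filter (fun v => v = c) + M.filter (fun v => ¬ v = c) :=
      (Multiset.filter_add_not _ _).symm
    have h2 : (M.filter (fun v => v = c)).sum = (M.count c : ℤ) * c := by
      have e : M.filter (fun v => v = c) = M.filter (Eq c) :=
        Multiset.filter_congr (fun v _ => eq_comm)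
      rw [e, Multiset.filter_eq, Multiset.sum_replicate, nsmul_eq_mul]
    have h3 : ∀ v ∈ M.filter (fun v => ¬ v = c), (p : ℤ) ∣ v ∧ v * c < 0 := by
      intro v hv
      obtain ⟨hv1, hv2⟩ := Multiset.mem_filter.1 hv
      exact (h v (Multiset.mem_of_le hMT hv1)).resolve_left hv2
    have h4 : (p : ℤ) ∣ (M.filter (fun v => ¬ v = c)).sum :=
      Multiset.dvd_sum (fun v hv => (h3 v hv).1)
    have h5 : (M.count c : ℤ) * c + (M.filter (fun v => ¬ v = c)).sum = 0 := by
      rw [← h2, ← Multiset.sum_add, ← h1]; exact hMs
    have h6 : (p : ℤ) ∣ (M.count c : ℤ) := by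
      have : (p : ℤ) ∣ (M.count c : ℤ) * c := by
        have e : (M.count c : ℤ) * c = -(M.filter (fun v => ¬ v = c)).sum := by linarith
        rw [e]; exact (dvd_neg).2 h4
      exact hc.dvd_of_dvd_mul_right this
    have h7 : p ∣ M.count c := by exact_mod_cast h6
    rcases Nat.eq_zero_or_pos (M.count c) with h8 | h8
    · exfalso
      have h9 : M.filter (fun v => ¬ v = c) = M := by
        rw [Multiset.filter_eq_self]
        rintro v hv rfl
        exact absurd (Multiset.count_pos.2 hv) (by omega)
      rw [h9] at h3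
      have h10 : (M.map (fun v => v * c)).sum = 0 := by
        rw [Multiset.sum_map_mul_right, Multiset.map_id', hMs, zero_mul]
      have h11 : ∀ s : Multiset ℤ, (∀ v ∈ s, v < 0) → s ≠ 0 → s.sum < 0 := by
        intro s
        induction s using Multiset.induction with
        | empty => intro _ h; exact absurd rfl h
        | cons a s ih =>
          intro hs _
          rw [Multiset.sum_cons]
          have ha := hs a (by simp)
          by_cases h0 : s = 0
          · subst h0; simpa using ha
          · have := ih (fun v hv => hs v (by simp [hv])) h0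
            linarith
      have h12 := h11 (M.map (fun v => v * c)) (by
        intro v hv
        obtain ⟨u, hu, rfl⟩ := Multiset.mem_map.1 hv
        exact (h3 u hu).2) (by
        intro h0
        exact hM0 (Multiset.map_eq_zero.1 h0))
      omega
    · exact Nat.le_of_dvd h8 h7
  have h10 : F.card * p ≤ F.sum.count c := by
    clear hFT hF
    induction F using Multiset.induction with
    | empty => simp
    | cons M F ih =>
      rw [Multiset.card_cons, Multiset.sum_cons, Multiset.count_add]
      have := key M (by simp)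
      have := ih (fun N hN => key N (by simp [hN]))
      linarith
  exact (Nat.le_div_iff_mul_le (by omega)).2 (h10.trans (Multiset.count_le_of_le _ hFT))

/-- admissible pairs from certificates -/
theorem adm_cert (m k : ℕ) (E : List (ℤ × ℤ)) (p0 p1 : ℕ) (c0 c1 : ℤ)
    (cs : List (ℕ × ℕ × ℕ × ℕ)) (r : ℕ)
    (hm : 1 ≤ m) (hE : E ≠ []) (h1 : ∀ t ∈ E, t.1 ≠ 0) (h2 : ∀ t ∈ E, t.2 ≠ 0)
    (h0 : (E.map Prod.fst).sum + (E.map Prod.snd).sum = 0)
    (hp0 : 1 ≤ p0) (hp1 : 1 ≤ p1) (hc0 : Int.gcd (p0 : ℤ) c0 = 1) (hc1 : Int.gcd (p1 : ℤ) c1 = 1)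
    (hd0 : ∀ v ∈ E.map Prod.fst, v = c0 ∨ ((p0 : ℤ) ∣ v ∧ v * c0 < 0))
    (hd1 : ∀ v ∈ E.map Prod.snd, v = c1 ∨ ((p1 : ℤ) ∣ v ∧ v * c1 < 0))
    (hk : cs.length + 1 = k)
    (hlow : m * (E.map Prod.fst).count c0 / p0 + m * (E.map Prod.snd).count c1 / p1 + 2 * k <
      m * E.length + 3)
    (hc : chk cs r (wl (List.replicate m E).flatten, 0) = true) : Adm k m := by
  classical
  refine ⟨wd E, ?_, ?_⟩
  · have := H74CL.up E [] (↑(E.map Prod.fst)) (by simp) (by simp) h0 (by simp)
    exact this.mem_commutator
  · rw [← H74CL.wd_flatten]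
    have hmem : ∀ s ∈ (List.replicate m E).flatten, s ∈ E := by
      intro s hs
      obtain ⟨l, hl, hs⟩ := List.mem_flatten.1 hs
      rwa [List.eq_of_mem_replicate hl] at hs
    have hlen : (List.replicate m E).flatten.length = m * E.length := H74CL.length_flatten m E
    apply H74CL.cl_eq
    · have := chk_spec cs r _ hc
      rw [hk] at this
      have e : val (wl (List.replicate m E).flatten, 0) = wd (List.replicate m E).flatten := by
        simp only [val, vl_wl, zpow_zero, mul_one]
      rwa [e] at this
    · intro g hg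
      have hb : ∀ (f : ℤ × ℤ → ℤ) (p : ℕ) (c : ℤ), 1 ≤ p → Int.gcd (p : ℤ) c = 1 →
          (∀ v ∈ E.map f, v = c ∨ ((p : ℤ) ∣ v ∧ v * c < 0)) →
          Bound (↑((List.replicate m E).flatten.map f)) (m * (E.map f).count c / p) := by
        intro f p c hp hc hd
        have := bound_of (↑((List.replicate m E).flatten.map f)) p hp c
          (Int.isCoprime_iff_gcd_eq_one.2 hc) (by
            intro v hv
            rw [H74CL.coe_flatten] at hv
            exact hd v (Multiset.mem_coe.1 (Multiset.mem_of_mem_nsmul hv)))
        have e : Multiset.count c (↑((List.replicate m E).flatten.map f) : Multiset ℤ) =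
            m * (E.map f).count c := by
          rw [H74CL.coe_flatten, Multiset.count_nsmul, Multiset.coe_count]
        rwa [e] at this
      have hnil : (List.replicate m E).flatten ≠ [] := by
        intro h
        rw [← List.length_eq_zero_iff, hlen] at h
        have h3 : 1 ≤ E.length := List.length_pos_iff.2 hE
        have := Nat.mul_le_mul hm h3
        omega
      have := lower (List.replicate m E).flatten hnil (fun s hs => h1 s (hmem s hs))
        (fun s hs => h2 s (hmem s hs)) g _ _ hg (hb Prod.fst p0 c0 hp0 hc0 hd0)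
        (hb Prod.snd p1 c1 hp1 hc1 hd1)
      rw [hlen] at this
      omega

end H79CDE
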