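import Pool.Agent.Helper79.CDE.Cert

/-!
The certificates for the pairs `(k, m)`, `m = 8, 10, 12, 14, 16, 18`, which are not covered by one
sided words.
-/

set_option autoImplicit false
set_option maxRecDepth 100000

namespace H79CDE

open H74CL (Adm)

theorem adm_6_8 : Adm 6 8 :=
  adm_cert 8 6 [(3, 1), (-2, -2)] 3 2 (-2) 1
    [(13, 8, 7, 0), (13, 2, 7, 0), (1, 0, 1, 0), (2, 10, 1, 0), (4, 1, 0, 1)] 2
    (by decide) (by decide) (by decide) (by decide) (by decide) (by decide) (by decide)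
    (by decide) (by decide) (by decide) (by decide) (by decide) (by decide) (by decide +kernel)

theorem adm_10_8 : Adm 10 8 :=
  adm_cert 8 10 [(4, 1), (-3, -2), (4, -4)] 4 2 (-3) 1
    [(15, 4, 9, 8), (18, 5, 8, 3), (13, 3, 4, 9), (7, 1, 22, 1), (1, 4, 19, 2), (14, 2, 1, 4),
    (0, 0, 11, 2), (3, 4, 1, 0), (2, 0, 3, 0)] 2
    (by decide) (by decide) (by decide) (by decide) (by decide) (by decide) (by decide)
    (by decide) (by decide) (by decide) (by decide) (by decide) (by decide) (by decide +kernel)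

theorem adm_7_10 : Adm 7 10 :=
  adm_cert 10 7 [(3, 1), (-2, -2)] 3 2 (-2) 1
    [(11, 7, 0, 13), (0, 6, 9, 8), (2, 12, 11, 2), (16, 3, 2, 1), (0, 2, 3, 12), (3, 1, 0, 1)] 0
    (by decide) (by decide) (by decide) (by decide) (by decide) (by decide) (by decide)
    (by decide) (by decide) (by decide) (by decide) (by decide) (by decide) (by decide +kernel)

theorem adm_12_10 : Adm 12 10 :=
  adm_cert 10 12 [(4, 1), (-3, -2), (4, -4)] 4 2 (-3) 1
    [(3, 6, 17, 18), (15, 14, 1, 10), (0, 5, 6, 27), (11, 27, 0, 1), (27, 0, 1, 4), (9, 10, 3,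
    6), (15, 3, 6, 5), (7, 4, 9, 4), (5, 0, 1, 10), (6, 5, 2, 3), (2, 3, 4, 1)] 0
    (by decide) (by decide) (by decide) (by decide) (by decide) (by decide) (by decide)
    (by decide) (by decide) (by decide) (by decide) (by decide) (by decide) (by decide +kernel)

theorem adm_8_12 : Adm 8 12 :=
  adm_cert 12 8 [(3, 1), (-2, -2)] 3 2 (-2) 1
    [(17, 16, 5, 0), (1, 14, 3, 12), (14, 1, 6, 11), (9, 12, 9, 0), (11, 3, 4, 1), (2, 5, 2, 5),
    (1, 1, 4, 1)] 0
    (by decide) (by decide) (by decide) (by decide) (by decide) (by decide) (by decide)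
    (by decide) (by decide) (by decide) (by decide) (by decide) (by decide) (by decide +kernel)

theorem adm_9_12 : Adm 9 12 :=
  adm_cert 12 9 [(3, 2), (-2, -3)] 3 3 (-2) 2
    [(16, 0, 3, 6), (19, 2, 3, 6), (19, 8, 7, 2), (7, 2, 7, 2), (1, 4, 15, 8), (10, 10, 3, 0),
    (5, 2, 13, 0), (3, 1, 4, 1)] 2
    (by decide) (by decide) (by decide) (by decide) (by decide) (by decide) (by decide)
    (by decide) (by decide) (by decide) (by decide) (by decide) (by decide) (by decide +kernel)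

theorem adm_14_12 : Adm 14 12 :=
  adm_cert 12 14 [(3, 1), (-2, -2), (6, -6)] 3 2 (-2) 1
    [(0, 0, 1, 62), (31, 10, 3, 0), (8, 15, 2, 17), (23, 9, 8, 7), (9, 10, 21, 10), (21, 1, 8,
    15), (10, 1, 8, 7), (13, 1, 10, 7), (9, 0, 1, 0), (1, 4, 19, 0), (14, 2, 1, 2), (2, 1, 4,
    5), (0, 1, 0, 1)] 0
    (by decide) (by decide) (by decide) (by decide) (by decide) (by decide) (by decide)
    (by decide) (by decide) (by decide) (by decide) (by decide) (by decide) (by decide +kernel)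

theorem adm_15_12 : Adm 15 12 :=
  adm_cert 12 15 [(3, 2), (-2, -3), (3, -3)] 3 3 (-2) 2
    [(0, 37, 28, 3), (33, 1, 0, 27), (31, 2, 1, 16), (15, 2, 39, 0), (9, 1, 0, 29), (7, 1, 12,
    17), (13, 3, 6, 19), (1, 9, 22, 7), (1, 21, 4, 5), (1, 10, 17, 0), (10, 3, 2, 3), (2, 3, 2,
    3), (1, 0, 1, 2), (1, 1, 2, 1)] 1
    (by decide) (by decide) (by decide) (by decide) (by decide) (by decide) (by decide)
    (by decide) (by decide) (by decide) (by decide) (by decide) (by decide) (by decide +kernel)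

theorem adm_9_14 : Adm 9 14 :=
  adm_cert 14 9 [(3, 1), (-2, -2)] 3 2 (-2) 1
    [(3, 16, 31, 0), (4, 29, 4, 3), (10, 7, 22, 1), (10, 3, 20, 3), (18, 1, 6, 1), (6, 12, 5,
    2), (7, 3, 0, 1), (3, 0, 5, 2)] 0
    (by decide) (by decide) (by decide) (by decide) (by decide) (by decide) (by decide)
    (by decide) (by decide) (by decide) (by decide) (by decide) (by decide) (by decide +kernel)

theorem adm_10_14 : Adm 10 14 :=
  adm_cert 14 10 [(4, 1), (-3, -2)] 4 2 (-3) 1
    [(3, 16, 29, 2), (4, 27, 12, 3), (10, 7, 2, 5), (11, 2, 23, 0), (0, 8, 5, 14), (3, 0, 21,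
    2), (8, 2, 1, 0), (1, 3, 0, 3), (2, 1, 2, 3)] 0
    (by decide) (by decide) (by decide) (by decide) (by decide) (by decide) (by decide)
    (by decide) (by decide) (by decide) (by decide) (by decide) (by decide) (by decide +kernel)

theorem adm_12_14 : Adm 12 14 :=
  adm_cert 14 12 [(4, 3), (-3, -4)] 4 4 (-3) 3
    [(3, 14, 13, 22), (4, 35, 4, 3), (0, 2, 15, 22), (17, 0, 23, 0), (1, 26, 3, 0), (26, 2, 1,
    0), (2, 0, 1, 14), (4, 15, 4, 1), (6, 1, 6, 7), (1, 1, 2, 1), (7, 0, 1, 0)] 2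
    (by decide) (by decide) (by decide) (by decide) (by decide) (by decide) (by decide)
    (by decide) (by decide) (by decide) (by decide) (by decide) (by decide) (by decide +kernel)

theorem adm_16_14 : Adm 16 14 :=
  adm_cert 14 16 [(5, 1), (-1, -2), (-1, -2)] 5 2 (-1) 1
    [(11, 39, 28, 1), (56, 7, 0, 5), (14, 10, 13, 0), (43, 6, 15, 2), (9, 5, 4, 11), (13, 37, 0,
    3), (23, 13, 4, 1), (28, 4, 1, 8), (4, 6, 23, 4), (13, 1, 0, 5), (10, 3, 4, 1), (4, 1, 2,
    9), (3, 4, 1, 0), (5, 3, 0, 5), (5, 0, 1, 0)] 3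
    (by decide) (by decide) (by decide) (by decide) (by decide) (by decide) (by decide)
    (by decide) (by decide) (by decide) (by decide) (by decide) (by decide) (by decide +kernel)

theorem adm_17_14 : Adm 17 14 :=
  adm_cert 14 17 [(4, 1), (-3, -2), (4, -4)] 4 2 (-3) 1
    [(53, 4, 11, 6), (50, 7, 18, 1), (15, 8, 3, 34), (22, 0, 23, 14), (12, 27, 0, 23), (17, 2,
    1, 0), (31, 7, 4, 5), (22, 1, 0, 15), (18, 11, 8, 5), (5, 2, 1, 0), (7, 9, 0, 9), (13, 0, 3,
    14), (7, 14, 3, 0), (6, 5, 8, 1), (1, 5, 4, 1), (0, 1, 2, 1)] 0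
    (by decide) (by decide) (by decide) (by decide) (by decide) (by decide) (by decide)
    (by decide) (by decide) (by decide) (by decide) (by decide) (by decide) (by decide +kernel)

theorem adm_19_14 : Adm 19 14 :=
  adm_cert 14 19 [(4, 3), (-3, -4), (4, -4)] 4 4 (-3) 3
    [(58, 8, 13, 0), (56, 7, 10, 1), (14, 2, 1, 34), (19, 24, 1, 14), (17, 16, 3, 26), (12, 20,
    15, 10), (29, 9, 14, 3), (38, 0, 13, 0), (8, 13, 2, 23), (7, 34, 1, 0), (8, 1, 14, 15), (8,
    0, 3, 6), (11, 2, 11, 4), (2, 5, 4, 9), (1, 9, 6, 3), (1, 3, 0, 9), (2, 2, 3, 2), (0, 1, 0,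
    1)] 0
    (by decide) (by decide) (by decide) (by decide) (by decide) (by decide) (by decide)
    (by decide) (by decide) (by decide) (by decide) (by decide) (by decide) (by decide +kernel)

theorem adm_10_16 : Adm 10 16 :=
  adm_cert 16 10 [(3, 1), (-2, -2)] 3 2 (-2) 1
    [(3, 44, 1, 12), (13, 6, 1, 28), (31, 0, 11, 0), (17, 13, 2, 1), (3, 21, 4, 7), (12, 3, 10,
    1), (22, 2, 1, 0), (5, 2, 5, 6), (2, 4, 1, 2)] 0
    (by decide) (by decide) (by decide) (by decide) (by decide) (by decide) (by decide)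
    (by decide) (by decide) (by decide) (by decide) (by decide) (by decide) (by decide +kernel)

theorem adm_11_16 : Adm 11 16 :=
  adm_cert 16 11 [(4, 1), (-3, -2)] 4 2 (-3) 1
    [(3, 3, 6, 21), (12, 27, 16, 1), (27, 4, 3, 4), (14, 5, 14, 5), (8, 1, 2, 23), (2, 3, 4,
    11), (14, 10, 3, 0), (8, 1, 6, 5), (11, 1, 0, 1), (1, 3, 2, 1)] 2
    (by decide) (by decide) (by decide) (by decide) (by decide) (by decide) (by decide)
    (by decide) (by decide) (by decide) (by decide) (by decide) (by decide) (by decide +kernel)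

theorem adm_12_16 : Adm 12 16 :=
  adm_cert 16 12 [(3, 2), (-2, -3)] 3 3 (-2) 2
    [(3, 10, 47, 0), (12, 1, 0, 21), (32, 7, 0, 1), (15, 10, 3, 18), (3, 5, 6, 25), (11, 3, 6,
    1), (11, 16, 1, 4), (17, 1, 0, 9), (9, 2, 1, 12), (1, 8, 1, 0), (1, 2, 3, 4)] 2
    (by decide) (by decide) (by decide) (by decide) (by decide) (by decide) (by decide)
    (by decide) (by decide) (by decide) (by decide) (by decide) (by decide) (by decide +kernel)

theorem adm_18_16 : Adm 18 16 :=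
  adm_cert 16 18 [(5, 1), (-1, -2), (-1, -2)] 5 2 (-1) 1
    [(1, 25, 14, 51), (21, 4, 5, 36), (30, 52, 1, 0), (38, 15, 12, 3), (13, 0, 29, 4), (25, 1,
    0, 33), (34, 17, 0, 13), (48, 5, 2, 1), (7, 28, 1, 4), (33, 6, 7, 0), (20, 15, 2, 5), (20,
    10, 5, 4), (14, 8, 3, 0), (12, 4, 1, 4), (0, 16, 1, 2), (2, 1, 8, 1), (1, 1, 2, 1)] 0
    (by decide) (by decide) (by decide) (by decide) (by decide) (by decide) (by decide)
    (by decide) (by decide) (by decide) (by decide) (by decide) (by decide) (by decide +kernel)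

theorem adm_19_16 : Adm 19 16 :=
  adm_cert 16 19 [(4, 1), (-3, -2), (4, -4)] 4 2 (-3) 1
    [(1, 20, 7, 2), (20, 7, 0, 21), (27, 1, 14, 11), (34, 7, 30, 3), (16, 23, 6, 11), (24, 0, 7,
    22), (28, 8, 25, 0), (17, 21, 12, 1), (16, 4, 27, 4), (15, 8, 27, 2), (4, 12, 3, 18), (11,
    17, 4, 3), (19, 6, 1, 10), (14, 2, 1, 8), (0, 14, 1, 2), (1, 2, 3, 0), (0, 8, 1, 0), (1, 2,
    1, 0)] 0
    (by decide) (by decide) (by decide) (by decide) (by decide) (by decide) (by decide)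
    (by decide) (by decide) (by decide) (by decide) (by decide) (by decide) (by decide +kernel)

theorem adm_20_16 : Adm 20 16 :=
  adm_cert 16 20 [(6, 1), (-5, -2), (6, -6)] 6 2 (-5) 1
    [(1, 12, 1, 10), (59, 5, 8, 11), (27, 3, 28, 13), (36, 8, 11, 4), (15, 0, 27, 34), (23, 23,
    2, 5), (31, 2, 3, 2), (46, 3, 6, 3), (8, 49, 0, 1), (31, 1, 8, 9), (21, 7, 0, 11), (22, 14,
    1, 0), (14, 2, 15, 2), (0, 0, 5, 16), (1, 0, 1, 8), (1, 8, 7, 6), (5, 2, 7, 0), (1, 0, 5,
    6), (1, 1, 0, 1)] 0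
    (by decide) (by decide) (by decide) (by decide) (by decide) (by decide) (by decide)
    (by decide) (by decide) (by decide) (by decide) (by decide) (by decide) (by decide +kernel)

theorem adm_11_18 : Adm 11 18 :=
  adm_cert 18 11 [(3, 1), (-2, -2)] 3 2 (-2) 1
    [(0, 21, 0, 21), (30, 7, 0, 17), (8, 2, 5, 24), (23, 1, 0, 5), (9, 8, 3, 12), (5, 2, 21, 2),
    (21, 7, 8, 1), (23, 5, 0, 1), (1, 6, 1, 12), (3, 2, 1, 4)] 2
    (by decide) (by decide) (by decide) (by decide) (by decide) (by decide) (by decide)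
    (by decide) (by decide) (by decide) (by decide) (by decide) (by decide) (by decide +kernel)

theorem adm_12_18 : Adm 12 18 :=
  adm_cert 18 12 [(4, 1), (-3, -2)] 4 2 (-3) 1
    [(0, 13, 44, 5), (55, 7, 0, 1), (34, 1, 0, 9), (17, 18, 19, 0), (35, 3, 0, 1), (24, 4, 15,
    2), (13, 7, 4, 3), (19, 2, 1, 4), (13, 5, 4, 7), (1, 1, 0, 3), (4, 1, 0, 1)] 3
    (by decide) (by decide) (by decide) (by decide) (by decide) (by decide) (by decide)
    (by decide) (by decide) (by decide) (by decide) (by decide) (by decide) (by decide +kernel)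

theorem adm_13_18 : Adm 13 18 :=
  adm_cert 18 13 [(3, 2), (-2, -3)] 3 3 (-2) 2
    [(0, 20, 13, 14), (52, 4, 7, 0), (32, 2, 9, 14), (17, 4, 9, 6), (11, 9, 8, 13), (8, 12, 3,
    22), (26, 0, 15, 2), (1, 10, 5, 8), (1, 1, 2, 19), (11, 2, 7, 2), (5, 0, 1, 8), (4, 2, 1,
    2)] 0
    (by decide) (by decide) (by decide) (by decide) (by decide) (by decide) (by decide)
    (by decide) (by decide) (by decide) (by decide) (by decide) (by decide) (by decide +kernel)

theorem adm_15_18 : Adm 15 18 :=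
  adm_cert 18 15 [(4, 3), (-3, -4)] 4 4 (-3) 3
    [(0, 0, 3, 8), (35, 2, 17, 4), (32, 5, 0, 5), (14, 17, 2, 23), (10, 8, 11, 2), (8, 8, 31,
    0), (15, 2, 19, 0), (1, 24, 1, 4), (1, 32, 3, 0), (1, 0, 5, 6), (12, 5, 2, 5), (11, 2, 7,
    2), (1, 5, 2, 9), (3, 1, 0, 5)] 0
    (by decide) (by decide) (by decide) (by decide) (by decide) (by decide) (by decide)
    (by decide) (by decide) (by decide) (by decide) (by decide) (by decide) (by decide +kernel)

theorem adm_20_18 : Adm 20 18 :=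
  adm_cert 18 20 [(5, 1), (-1, -2), (-1, -2)] 5 2 (-1) 1
    [(34, 4, 3, 32), (14, 11, 46, 29), (30, 32, 17, 16), (28, 8, 9, 36), (52, 8, 1, 8), (7, 12,
    17, 14), (20, 3, 4, 1), (37, 10, 5, 6), (11, 7, 10, 33), (27, 18, 9, 2), (1, 12, 1, 30),
    (36, 3, 2, 11), (15, 0, 11, 24), (5, 14, 21, 4), (16, 5, 6, 9), (2, 1, 12, 5), (7, 8, 9, 6),
    (2, 1, 10, 7), (4, 0, 1, 2)] 0
    (by decide) (by decide) (by decide) (by decide) (by decide) (by decide) (by decide)
    (by decide) (by decide) (by decide) (by decide) (by decide) (by decide) (by decide +kernel)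

theorem adm_21_18 : Adm 21 18 :=
  adm_cert 18 21 [(5, 1), (-1, -5), (-1, 1)] 5 5 (-1) 1
    [(35, 21, 8, 5), (14, 18, 37, 12), (36, 17, 28, 13), (32, 8, 9, 2), (2, 11, 0, 29), (8, 16,
    7, 12), (21, 24, 3, 14), (30, 3, 40, 3), (4, 0, 1, 32), (0, 9, 22, 19), (2, 0, 7, 42), (0,
    32, 9, 10), (14, 6, 11, 10), (5, 2, 27, 10), (13, 3, 2, 17), (3, 16, 23, 0), (4, 0, 29, 0),
    (8, 5, 0, 3), (3, 10, 1, 4), (2, 2, 1, 0)] 0
    (by decide) (by decide) (by decide) (by decide) (by decide) (by decide) (by decide)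
    (by decide) (by decide) (by decide) (by decide) (by decide) (by decide) (by decide +kernel)

theorem adm_22_18 : Adm 22 18 :=
  adm_cert 18 22 [(6, 1), (-5, -2), (6, -6)] 6 2 (-5) 1
    [(37, 17, 6, 39), (14, 12, 43, 20), (32, 17, 16, 29), (30, 2, 21, 6), (60, 1, 4, 23), (7,
    47, 12, 7), (20, 21, 0, 3), (37, 6, 3, 12), (34, 4, 9, 8), (4, 18, 5, 12), (39, 1, 0, 1),
    (3, 20, 13, 16), (28, 0, 1, 4), (12, 2, 7, 22), (10, 4, 23, 0), (17, 6, 7, 0), (7, 2, 1,
    16), (6, 5, 0, 1), (4, 8, 3, 0), (6, 1, 0, 3), (2, 0, 1, 2)] 0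
    (by decide) (by decide) (by decide) (by decide) (by decide) (by decide) (by decide)
    (by decide) (by decide) (by decide) (by decide) (by decide) (by decide) (by decide +kernel)

theorem adm_24_18 : Adm 24 18 :=
  adm_cert 18 24 [(4, 3), (-3, -4), (4, -4)] 4 4 (-3) 3
    [(33, 12, 49, 4), (14, 3, 68, 7), (29, 11, 12, 31), (26, 8, 3, 48), (49, 20, 19, 0), (8, 56,
    3, 16), (22, 1, 14, 17), (28, 23, 24, 1), (14, 5, 8, 13), (31, 0, 13, 22), (1, 16, 23, 12),
    (34, 1, 2, 1), (18, 2, 1, 14), (5, 17, 16, 7), (24, 2, 3, 0), (27, 1, 0, 11), (4, 0, 1, 30),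
    (3, 0, 1, 4), (7, 8, 9, 0), (4, 2, 9, 4), (3, 8, 1, 0), (1, 1, 0, 1), (1, 0, 1, 0)] 0
    (by decide) (by decide) (by decide) (by decide) (by decide) (by decide) (by decide)
    (by decide) (by decide) (by decide) (by decide) (by decide) (by decide) (by decide +kernel)

end H79CDE
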