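import Pool.Agent.Helper79.CDE.Certs

/-!
For `m = 8, 10, 12, 14, 16, 18` all pairs `(k, m)` with `m < 2 k` are admissible.
-/

set_option autoImplicit false

namespace H79CDE

open H74CL (Adm adm_family)

lemma fam0 (m n : ℕ) (hm : 1 ≤ m) (hn : 1 ≤ n) : Adm (n * m / 2 + 1) m := by
  have := adm_family m hm [] (by simp) n (by simpa using hn)
  simpa using this

lemma fam1 (m p n : ℕ) (hm : 1 ≤ m) (hp : 2 ≤ p) (hn : 2 ≤ n) :
    Adm ((n * m - m / p) / 2 + 1) m := by
  have := adm_family m hm [p] (by simpa using hp) (n - 2) (by simp)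
  have e : 2 * [p].length + (n - 2) = n := by simp; omega
  rw [e] at this
  simpa using this

lemma fam2 (m p q n : ℕ) (hm : 1 ≤ m) (hp : 2 ≤ p) (hq : 2 ≤ q) (hn : 4 ≤ n) :
    Adm ((n * m - (m / p + m / q)) / 2 + 1) m := by
  have := adm_family m hm [p, q] (by simp [hp, hq]) (n - 4) (by simp; omega)
  have e : 2 * [p, q].length + (n - 4) = n := by simp; omega
  rw [e] at this
  simpa using this

theorem adm_m8 (k : ℕ) (h : 8 < 2 * k) : Adm k 8 := by
  obtain ⟨a, b, hb, e⟩ : ∃ a b, b < 4 ∧ k = 4 * a + b + 1 :=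
    ⟨(k - 1) / 4, (k - 1) % 4, by omega, by omega⟩
  have ha : 1 ≤ a := by omega
  interval_cases b
  · have := fam0 8 a (by norm_num) ha
    rwa [show a * 8 / 2 + 1 = k by omega] at this
  · rcases (by omega : a = 1 ∨ a = 2 ∨ 3 ≤ a) with rfl | rfl | h3
    · subst e; exact adm_6_8
    · subst e; exact adm_10_8
    · have := fam2 8 2 3 (a + 1) (by norm_num) (by norm_num) (by norm_num) (by omega)
      rwa [show ((a + 1) * 8 - (8 / 2 + 8 / 3)) / 2 + 1 = k by omega] at this
  · have := fam1 8 2 (a + 1) (by norm_num) (by norm_num) (by omega)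
    rwa [show ((a + 1) * 8 - 8 / 2) / 2 + 1 = k by omega] at this
  · have := fam1 8 3 (a + 1) (by norm_num) (by norm_num) (by omega)
    rwa [show ((a + 1) * 8 - 8 / 3) / 2 + 1 = k by omega] at this

theorem adm_m10 (k : ℕ) (h : 10 < 2 * k) : Adm k 10 := by
  obtain ⟨a, b, hb, e⟩ : ∃ a b, b < 5 ∧ k = 5 * a + b + 1 :=
    ⟨(k - 1) / 5, (k - 1) % 5, by omega, by omega⟩
  have ha : 1 ≤ a := by omega
  interval_cases b
  · have := fam0 10 a (by norm_num) ha
    rwa [show a * 10 / 2 + 1 = k by omega] at this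
  · rcases (by omega : a = 1 ∨ a = 2 ∨ 3 ≤ a) with rfl | rfl | h3
    · subst e; exact adm_7_10
    · subst e; exact adm_12_10
    · have := fam2 10 2 3 (a + 1) (by norm_num) (by norm_num) (by norm_num) (by omega)
      rwa [show ((a + 1) * 10 - (10 / 2 + 10 / 3)) / 2 + 1 = k by omega] at this
  · have := fam1 10 2 (a + 1) (by norm_num) (by norm_num) (by omega)
    rwa [show ((a + 1) * 10 - 10 / 2) / 2 + 1 = k by omega] at this
  · have := fam1 10 3 (a + 1) (by norm_num) (by norm_num) (by omega)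
    rwa [show ((a + 1) * 10 - 10 / 3) / 2 + 1 = k by omega] at this
  · have := fam1 10 4 (a + 1) (by norm_num) (by norm_num) (by omega)
    rwa [show ((a + 1) * 10 - 10 / 4) / 2 + 1 = k by omega] at this

theorem adm_m12 (k : ℕ) (h : 12 < 2 * k) : Adm k 12 := by
  obtain ⟨a, b, hb, e⟩ : ∃ a b, b < 6 ∧ k = 6 * a + b + 1 :=
    ⟨(k - 1) / 6, (k - 1) % 6, by omega, by omega⟩
  have ha : 1 ≤ a := by omega
  interval_cases b
  · have := fam0 12 a (by norm_num) ha
    rwa [show a * 12 / 2 + 1 = k by omega] at this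
  · rcases (by omega : a = 1 ∨ a = 2 ∨ 3 ≤ a) with rfl | rfl | h3
    · subst e; exact adm_8_12
    · subst e; exact adm_14_12
    · have := fam2 12 2 3 (a + 1) (by norm_num) (by norm_num) (by norm_num) (by omega)
      rwa [show ((a + 1) * 12 - (12 / 2 + 12 / 3)) / 2 + 1 = k by omega] at this
  · rcases (by omega : a = 1 ∨ a = 2 ∨ 3 ≤ a) with rfl | rfl | h3
    · subst e; exact adm_9_12
    · subst e; exact adm_15_12
    · have := fam2 12 2 5 (a + 1) (by norm_num) (by norm_num) (by norm_num) (by omega)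
      rwa [show ((a + 1) * 12 - (12 / 2 + 12 / 5)) / 2 + 1 = k by omega] at this
  · have := fam1 12 2 (a + 1) (by norm_num) (by norm_num) (by omega)
    rwa [show ((a + 1) * 12 - 12 / 2) / 2 + 1 = k by omega] at this
  · have := fam1 12 3 (a + 1) (by norm_num) (by norm_num) (by omega)
    rwa [show ((a + 1) * 12 - 12 / 3) / 2 + 1 = k by omega] at this
  · have := fam1 12 5 (a + 1) (by norm_num) (by norm_num) (by omega)
    rwa [show ((a + 1) * 12 - 12 / 5) / 2 + 1 = k by omega] at this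

theorem adm_m14 (k : ℕ) (h : 14 < 2 * k) : Adm k 14 := by
  obtain ⟨a, b, hb, e⟩ : ∃ a b, b < 7 ∧ k = 7 * a + b + 1 :=
    ⟨(k - 1) / 7, (k - 1) % 7, by omega, by omega⟩
  have ha : 1 ≤ a := by omega
  interval_cases b
  · have := fam0 14 a (by norm_num) ha
    rwa [show a * 14 / 2 + 1 = k by omega] at this
  · rcases (by omega : a = 1 ∨ a = 2 ∨ 3 ≤ a) with rfl | rfl | h3
    · subst e; exact adm_9_14
    · subst e; exact adm_16_14
    · have := fam2 14 2 3 (a + 1) (by norm_num) (by norm_num) (by norm_num) (by omega)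
      rwa [show ((a + 1) * 14 - (14 / 2 + 14 / 3)) / 2 + 1 = k by omega] at this
  · rcases (by omega : a = 1 ∨ a = 2 ∨ 3 ≤ a) with rfl | rfl | h3
    · subst e; exact adm_10_14
    · subst e; exact adm_17_14
    · have := fam2 14 2 4 (a + 1) (by norm_num) (by norm_num) (by norm_num) (by omega)
      rwa [show ((a + 1) * 14 - (14 / 2 + 14 / 4)) / 2 + 1 = k by omega] at this
  · have := fam1 14 2 (a + 1) (by norm_num) (by norm_num) (by omega)
    rwa [show ((a + 1) * 14 - 14 / 2) / 2 + 1 = k by omega] at this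
  · rcases (by omega : a = 1 ∨ a = 2 ∨ 3 ≤ a) with rfl | rfl | h3
    · subst e; exact adm_12_14
    · subst e; exact adm_19_14
    · have := fam2 14 3 5 (a + 1) (by norm_num) (by norm_num) (by norm_num) (by omega)
      rwa [show ((a + 1) * 14 - (14 / 3 + 14 / 5)) / 2 + 1 = k by omega] at this
  · have := fam1 14 3 (a + 1) (by norm_num) (by norm_num) (by omega)
    rwa [show ((a + 1) * 14 - 14 / 3) / 2 + 1 = k by omega] at this
  · have := fam1 14 5 (a + 1) (by norm_num) (by norm_num) (by omega)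
    rwa [show ((a + 1) * 14 - 14 / 5) / 2 + 1 = k by omega] at this

theorem adm_m16 (k : ℕ) (h : 16 < 2 * k) : Adm k 16 := by
  obtain ⟨a, b, hb, e⟩ : ∃ a b, b < 8 ∧ k = 8 * a + b + 1 :=
    ⟨(k - 1) / 8, (k - 1) % 8, by omega, by omega⟩
  have ha : 1 ≤ a := by omega
  interval_cases b
  · have := fam0 16 a (by norm_num) ha
    rwa [show a * 16 / 2 + 1 = k by omega] at this
  · rcases (by omega : a = 1 ∨ a = 2 ∨ 3 ≤ a) with rfl | rfl | h3
    · subst e; exact adm_10_16
    · subst e; exact adm_18_16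
    · have := fam2 16 2 3 (a + 1) (by norm_num) (by norm_num) (by norm_num) (by omega)
      rwa [show ((a + 1) * 16 - (16 / 2 + 16 / 3)) / 2 + 1 = k by omega] at this
  · rcases (by omega : a = 1 ∨ a = 2 ∨ 3 ≤ a) with rfl | rfl | h3
    · subst e; exact adm_11_16
    · subst e; exact adm_19_16
    · have := fam2 16 2 4 (a + 1) (by norm_num) (by norm_num) (by norm_num) (by omega)
      rwa [show ((a + 1) * 16 - (16 / 2 + 16 / 4)) / 2 + 1 = k by omega] at this
  · rcases (by omega : a = 1 ∨ a = 2 ∨ 3 ≤ a) with rfl | rfl | h3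
    · subst e; exact adm_12_16
    · subst e; exact adm_20_16
    · have := fam2 16 2 6 (a + 1) (by norm_num) (by norm_num) (by norm_num) (by omega)
      rwa [show ((a + 1) * 16 - (16 / 2 + 16 / 6)) / 2 + 1 = k by omega] at this
  · have := fam1 16 2 (a + 1) (by norm_num) (by norm_num) (by omega)
    rwa [show ((a + 1) * 16 - 16 / 2) / 2 + 1 = k by omega] at this
  · have := fam1 16 3 (a + 1) (by norm_num) (by norm_num) (by omega)
    rwa [show ((a + 1) * 16 - 16 / 3) / 2 + 1 = k by omega] at this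
  · have := fam1 16 4 (a + 1) (by norm_num) (by norm_num) (by omega)
    rwa [show ((a + 1) * 16 - 16 / 4) / 2 + 1 = k by omega] at this
  · have := fam1 16 6 (a + 1) (by norm_num) (by norm_num) (by omega)
    rwa [show ((a + 1) * 16 - 16 / 6) / 2 + 1 = k by omega] at this

theorem adm_m18 (k : ℕ) (h : 18 < 2 * k) : Adm k 18 := by
  obtain ⟨a, b, hb, e⟩ : ∃ a b, b < 9 ∧ k = 9 * a + b + 1 :=
    ⟨(k - 1) / 9, (k - 1) % 9, by omega, by omega⟩
  have ha : 1 ≤ a := by omega
  interval_cases b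
  · have := fam0 18 a (by norm_num) ha
    rwa [show a * 18 / 2 + 1 = k by omega] at this
  · rcases (by omega : a = 1 ∨ a = 2 ∨ 3 ≤ a) with rfl | rfl | h3
    · subst e; exact adm_11_18
    · subst e; exact adm_20_18
    · have := fam2 18 2 3 (a + 1) (by norm_num) (by norm_num) (by norm_num) (by omega)
      rwa [show ((a + 1) * 18 - (18 / 2 + 18 / 3)) / 2 + 1 = k by omega] at this
  · rcases (by omega : a = 1 ∨ a = 2 ∨ 3 ≤ a) with rfl | rfl | h3
    · subst e; exact adm_12_18
    · subst e; exact adm_21_18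
    · have := fam2 18 2 4 (a + 1) (by norm_num) (by norm_num) (by norm_num) (by omega)
      rwa [show ((a + 1) * 18 - (18 / 2 + 18 / 4)) / 2 + 1 = k by omega] at this
  · rcases (by omega : a = 1 ∨ a = 2 ∨ 3 ≤ a) with rfl | rfl | h3
    · subst e; exact adm_13_18
    · subst e; exact adm_22_18
    · have := fam2 18 2 5 (a + 1) (by norm_num) (by norm_num) (by norm_num) (by omega)
      rwa [show ((a + 1) * 18 - (18 / 2 + 18 / 5)) / 2 + 1 = k by omega] at this
  · have := fam1 18 2 (a + 1) (by norm_num) (by norm_num) (by omega)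
    rwa [show ((a + 1) * 18 - 18 / 2) / 2 + 1 = k by omega] at this
  · rcases (by omega : a = 1 ∨ a = 2 ∨ 3 ≤ a) with rfl | rfl | h3
    · subst e; exact adm_15_18
    · subst e; exact adm_24_18
    · have := fam2 18 3 7 (a + 1) (by norm_num) (by norm_num) (by norm_num) (by omega)
      rwa [show ((a + 1) * 18 - (18 / 3 + 18 / 7)) / 2 + 1 = k by omega] at this
  · have := fam1 18 3 (a + 1) (by norm_num) (by norm_num) (by omega)
    rwa [show ((a + 1) * 18 - 18 / 3) / 2 + 1 = k by omega] at this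
  · have := fam1 18 4 (a + 1) (by norm_num) (by norm_num) (by omega)
    rwa [show ((a + 1) * 18 - 18 / 4) / 2 + 1 = k by omega] at this
  · have := fam1 18 7 (a + 1) (by norm_num) (by norm_num) (by omega)
    rwa [show ((a + 1) * 18 - 18 / 7) / 2 + 1 = k by omega] at this

theorem adm_even18 (k m : ℕ)
    (hm : m = 8 ∨ m = 10 ∨ m = 12 ∨ m = 14 ∨ m = 16 ∨ m = 18) (h : m < 2 * k) : Adm k m := by
  rcases hm with rfl | rfl | rfl | rfl | rfl | rfl
  · exact adm_m8 k h
  · exact adm_m10 k h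
  · exact adm_m12 k h
  · exact adm_m14 k h
  · exact adm_m16 k h
  · exact adm_m18 k h

end H79CDE
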