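import Pool.Agent.Helper79.CDE.Word
import Pool.Agent.Helper74.CL.Low

/-!
The lower bound for the commutator length of two sided words.
-/

set_option autoImplicit false

namespace H79CDE

open H74CL (il sgn ga gb Gen Glue cols rot gen_of_PC PC ree_iso sgn_not)
open DL

/-- height -/
def hgt : DL → ℕ
  | L _ _ _ k => k + 1
  | _ => 0

/-- remaining exponent -/
def rho : DL → ℤ
  | L _ _ s k => sgn s * ((k + 1 : ℕ) : ℤ)
  | _ => 0

/-- sign of a letter of a run -/
def sg : DL → ℤ
  | L _ _ s _ => sgn s
  | _ => 0

theorem lower_aux (S : List ((ℕ × Bool) × (ℕ × Bool))) (hS : S ≠ []) (g : ℕ) (z : Bool → ℕ)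
    (hg : Gen ((dec S).map letter) g)
    (hz : ∀ d, ∀ F : Multiset (Multiset ℤ), (∀ M ∈ F, M ≠ 0 ∧ M.sum = 0) →
      F.sum ≤ ↑(S.map (ex d)) → F.card ≤ z d) :
    S.length + 1 ≤ z false + z true + 2 * g := by
  classical
  obtain ⟨π, c, hG, hcard⟩ := hg
  have hlen : ((dec S).map letter).length = (dec S).length := List.length_map _
  obtain ⟨hlt, hinv, hlab, hcyc, hcol⟩ := hG
  rw [hlen] at hlt hinv hlab hcyc hcol hcard
  have hcolsdef : ∀ v, v ∈ cols ((dec S).map letter) c ↔ ∃ i, i < (dec S).length + 1 ∧ c i = v := by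
    intro v
    simp only [cols, hlen, Finset.mem_image, Finset.mem_range]
  have hn : 0 < (dec S).length := by
    cases S with
    | nil => exact absurd rfl hS
    | cons t S => rw [dec_cons, List.length_append]; simp [blk, hb]
  have hlab' : ∀ i (hi : i < (dec S).length), letter ((dec S)[π i]'(hlt i hi)) =
      il (letter ((dec S)[i])) := by
    intro i hi
    have h1 := hlab i hi
    rw [List.getElem?_map, List.getElem?_map, List.getElem?_eq_getElem (hlt i hi),
      List.getElem?_eq_getElem hi] at h1
    exact Option.some.inj h1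
  have hcycR := cyc_R S hS
  have hwb : ∑ i : Fin (dec S).length, wb (dec S)[i] = 2 * S.length := by
    rw [← sum_wb S]
    exact Fin.sum_univ_fun_getElem (dec S) wb
  have hwf : ∀ d, ∑ i : Fin (dec S).length, wf d (dec S)[i] = ↑(S.map (ex d)) := by
    intro d
    rw [← sum_wf d S]
    exact Fin.sum_univ_fun_getElem (dec S) (wf d)
  simp only [← hwf] at hz
  clear hwf
  set n : ℕ := (dec S).length with hndef
  let dl : Fin n → DL := fun i => (dec S)[i]
  let pi : Fin n → Fin n := fun i => ⟨π i.1, hlt i.1 i.2⟩
  have hpi : ∀ i, pi (pi i) = i := fun i => Fin.ext (hinv i.1 i.2)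
  have hpl : ∀ i, letter (dl (pi i)) = il (letter (dl i)) := fun i => hlab' i.1 i.2
  have hpl1 : ∀ i, (letter (dl (pi i))).1 = (letter (dl i)).1 := fun i => by rw [hpl]; rfl
  -- the two parts of the pairing
  let pa : Fin n → Fin n := fun i => if (letter (dl i)).1 = 0 then pi i else i
  let pb : Fin n → Fin n := fun i => if (letter (dl i)).1 = 0 then i else pi i
  have hpa : ∀ i, pa (pa i) = i := by
    intro i
    by_cases h : (letter (dl i)).1 = 0
    · have h1 : pa i = pi i := if_pos h
      have h2 : pa (pi i) = pi (pi i) := if_pos (by rw [hpl1]; exact h)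
      rw [h1, h2, hpi]
    · have h1 : pa i = i := if_neg h
      rw [h1, h1]
  have hpb : ∀ i, pb (pb i) = i := by
    intro i
    by_cases h : (letter (dl i)).1 = 0
    · have h1 : pb i = i := if_pos h
      rw [h1, h1]
    · have h1 : pb i = pi i := if_neg h
      have h2 : pb (pi i) = pi (pi i) := if_neg (by rw [hpl1]; exact h)
      rw [h1, h2, hpi]
  let p : Equiv.Perm (Fin n) := ⟨pa, pa, hpa, hpa⟩
  let q : Equiv.Perm (Fin n) := ⟨pb, pb, hpb, hpb⟩
  let φ : Equiv.Perm (Fin n) := q.trans (rot n hn)
  have hφ : ∀ i, φ i = rot n hn (pb i) := fun i => rfl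
  have hp : ∀ i, p i = pa i := fun i => rfl
  -- the colours
  let K : Type := {v // v ∈ cols ((dec S).map letter) c}
  let cc : Fin n → K := fun i => ⟨c i.1, (hcolsdef _).2 ⟨i.1, by have := i.2; omega, rfl⟩⟩
  have hcc : Function.Surjective cc := by
    rintro ⟨v, hv⟩
    obtain ⟨i, hi, rfl⟩ := (hcolsdef v).1 hv
    by_cases h : i < n
    · exact ⟨⟨i, h⟩, rfl⟩
    · have : i = n := by omega
      subst this
      exact ⟨⟨0, hn⟩, Subtype.ext hcyc⟩
  have hccol : ∀ i, cc (φ (p i)) = cc i := by
    intro i
    have h1 : φ (p i) = rot n hn (pi i) := by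
      rw [hφ, hp]
      by_cases h : (letter (dl i)).1 = 0
      · have h1 : pa i = pi i := if_pos h
        have h2 : pb (pi i) = pi i := if_pos (by rw [hpl1]; exact h)
        rw [h1, h2]
      · have h1 : pa i = i := if_neg h
        have h2 : pb i = pi i := if_neg h
        rw [h1, h2]
    rw [h1]
    apply Subtype.ext
    change c ((π i.1 + 1) % n) = c i.1
    rw [hcol i.1 i.2]
    have := hlt i.1 i.2
    by_cases h : π i.1 + 1 < n
    · rw [Nat.mod_eq_of_lt h]
    · have h2 : π i.1 + 1 = n := by omega
      rw [h2, Nat.mod_self, hcyc]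
  -- positive letters
  let A : Finset (Fin n) := Finset.univ.filter (fun i => letter (dl i) = (0, true))
  let A' : Finset (Fin n) := Finset.univ.filter (fun i => letter (dl i) = (0, false))
  have hA : ∀ i, i ∈ A ∨ p i ∈ A ∨ p i = i := by
    intro i
    by_cases h : (letter (dl i)).1 = 0
    · rcases hs : (letter (dl i)).2 with _ | _
      · right; left
        have h1 : p i = pi i := if_pos h
        rw [h1]
        refine Finset.mem_filter.2 ⟨Finset.mem_univ _, ?_⟩
        rw [hpl]
        exact Prod.ext h (by simp [il, hs])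
      · left
        exact Finset.mem_filter.2 ⟨Finset.mem_univ _, Prod.ext h hs⟩
    · right; right; exact if_neg h
  -- successor rules
  have hstep : ∀ i : Fin n, R (dl i) (dl (rot n hn i)) := by
    intro i
    exact hcycR i.1 i.2 (rot n hn i).1 (rot n hn i).2 rfl
  have stL : ∀ i d f s k, dl i = L d f s k → R (L d f s k) (dl (φ i)) := by
    intro i d f s k h
    have h1 : pb i = i := if_pos (by rw [h]; rfl)
    rw [hφ, h1, ← h]
    exact hstep i
  have letterB : ∀ (u : DL) (d : Bool), letter u = (1, d) → u = B (!d) := by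
    rintro (⟨d', f, s, k⟩ | ⟨d'⟩) d h
    · exact absurd (congrArg Prod.fst h) (show ¬ ((0 : Fin 2) = 1) by decide)
    · have h1 : (!d') = d := congrArg Prod.snd h
      rw [← h1, Bool.not_not]
  have stB : ∀ i d, dl i = B d → ∃ s k, dl (φ i) = L d true s k := by
    intro i d h
    have h1 : pb i = pi i := if_neg (by rw [h]; exact show ¬ ((1 : Fin 2) = 0) by decide)
    have h2 : dl (pi i) = B (!d) := by
      have h3 : letter (dl (pi i)) = (1, d) := by
        rw [hpl, h]
        cases d <;> rfl
      exact letterB _ _ h3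
    have h3 := hstep (pi i)
    rw [h2] at h3
    obtain ⟨s, k, h4⟩ : ∃ s k, dl (rot n hn (pi i)) = L (!(!d)) true s k := h3
    rw [Bool.not_not] at h4
    exact ⟨s, k, by rw [hφ, h1]; exact h4⟩
  -- the side is invariant
  have hside : ∀ e, side (dl (φ e)) = side (dl e) := by
    intro e
    rcases hd : dl e with ⟨d, f, s, _ | k⟩ | ⟨d⟩
    · have h2 : dl (φ e) = B d := stL e d f s 0 hd
      rw [h2]; rfl
    · have h2 : dl (φ e) = L d false s k := stL e d f s (k + 1) hd
      rw [h2]; rfl
    · obtain ⟨s, k, h2⟩ := stB e d hd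
      rw [h2]; rfl
  have hT : ∀ d e, e ∈ {e | side (dl e) = d} ↔ φ e ∈ {e | side (dl e) = d} := by
    intro d e
    change side (dl e) = d ↔ side (dl (φ e)) = d
    rw [hside]
  -- isolated classes
  obtain ⟨Q', k', I, hI, hk1, hk2, hne, hiso⟩ := ree_iso A φ p cc hcc hpa hccol hA
  -- the key claim
  have key : ∀ x ∈ I, ∃ d, (∃ i, k' i = x ∧ (∃ s k, dl i = L d true s k)) ∧
      (∀ i, k' i = x → side (dl i) = d) ∧
      ∑ i ∈ Finset.univ.filter (fun i => k' i = x), (wf d (dl i)).sum = 0 := by
    intro x hx
    obtain ⟨i0, hi0⟩ := hne x hx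
    set d := side (dl i0) with hd0
    have hsd : ∀ i, k' i = x → side (dl i) = d := by
      intro i hi
      exact hiso x hx {e | side (dl e) = d} (hT d) i0 i hi0 hi rfl
    have hsum : ∀ {M : Type} [AddCommMonoid M] (f : Fin n → M),
        ∑ i ∈ Finset.univ.filter (fun i => k' i = x), f (φ i) =
        ∑ i ∈ Finset.univ.filter (fun i => k' i = x), f i := by
      intro M _ f
      refine Finset.sum_equiv φ ?_ ?_
      · intro i
        simp [hk1]
      · intro i _; rfl
    have hsump : ∀ {M : Type} [AddCommMonoid M] (f : Fin n → M),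
        ∑ i ∈ Finset.univ.filter (fun i => k' i = x), f (p i) =
        ∑ i ∈ Finset.univ.filter (fun i => k' i = x), f i := by
      intro M _ f
      refine Finset.sum_equiv p ?_ ?_
      · intro i
        simp [hk2]
      · intro i _; rfl
    refine ⟨d, ?_, hsd, ?_⟩
    · -- a first letter exists
      by_contra hcon
      push Not at hcon
      have h1 : ∀ i, k' i = x → hgt (dl (φ i)) + 1 = hgt (dl i) := by
        intro i hi
        have hs := hsd i hi
        rcases hd : dl i with ⟨d', f, s, _ | k⟩ | ⟨d'⟩
        · have h2 : dl (φ i) = B d' := stL i d' f s 0 hd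
          rw [h2]; rfl
        · have h2 : dl (φ i) = L d' false s k := stL i d' f s (k + 1) hd
          rw [h2]; rfl
        · obtain ⟨s, k, h2⟩ := stB i d' hd
          rw [hd] at hs
          have h3 : d' = d := hs
          rw [h3] at h2
          exact absurd h2 (hcon (φ i) (by rw [hk1, hi]) s k)
      have h2 : ∑ i ∈ Finset.univ.filter (fun i => k' i = x), (hgt (dl (φ i)) + 1) =
          ∑ i ∈ Finset.univ.filter (fun i => k' i = x), hgt (dl i) :=
        Finset.sum_congr rfl (fun i hi => h1 i (Finset.mem_filter.1 hi).2)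
      rw [Finset.sum_add_distrib, hsum (fun i => hgt (dl i)), Finset.sum_const, smul_eq_mul,
        mul_one] at h2
      have h3 : 0 < (Finset.univ.filter (fun i => k' i = x)).card :=
        Finset.card_pos.2 ⟨i0, by simp [hi0]⟩
      omega
    · have h1 : ∀ i, k' i = x → rho (dl (φ i)) + sg (dl i) =
          rho (dl i) + (wf d (dl (φ i))).sum := by
        intro i hi
        have hs := hsd i hi
        rcases hd : dl i with ⟨d', f, s, _ | k⟩ | ⟨d'⟩
        · have h2 : dl (φ i) = B d' := stL i d' f s 0 hd
          rw [h2]; simp [rho, sg, wf]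
        · have h2 : dl (φ i) = L d' false s k := stL i d' f s (k + 1) hd
          rw [h2]; simp [rho, sg, wf]; ring
        · obtain ⟨s, k, h2⟩ := stB i d' hd
          rw [hd] at hs
          have h3 : d' = d := hs
          rw [h2, h3]; simp [rho, sg, wf]
      have h2 : ∑ i ∈ Finset.univ.filter (fun i => k' i = x), (rho (dl (φ i)) + sg (dl i)) =
          ∑ i ∈ Finset.univ.filter (fun i => k' i = x), (rho (dl i) + (wf d (dl (φ i))).sum) :=
        Finset.sum_congr rfl (fun i hi => h1 i (Finset.mem_filter.1 hi).2)
      rw [Finset.sum_add_distrib, Finset.sum_add_distrib, hsum (fun i => rho (dl i)),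
        hsum (fun i => (wf d (dl i)).sum)] at h2
      have h3 : ∑ i ∈ Finset.univ.filter (fun i => k' i = x), sg (dl i) =
          ∑ i ∈ Finset.univ.filter (fun i => k' i = x), - sg (dl i) := by
        rw [← hsump (fun i => sg (dl i))]
        refine Finset.sum_congr rfl (fun i hi => ?_)
        rcases hd : dl i with ⟨d', f, s, k⟩ | ⟨d'⟩
        · have h4 : p i = pi i := if_pos (by rw [hd]; rfl)
          rw [h4]
          have h5 : letter (dl (pi i)) = (0, !s) := by rw [hpl, hd]; rfl
          rcases hd' : dl (pi i) with ⟨d'', f', s', k'⟩ | ⟨d''⟩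
          · rw [hd'] at h5
            have h6 : s' = !s := congrArg Prod.snd h5
            rw [h6]
            exact sgn_not s
          · rw [hd'] at h5
            exact absurd (congrArg Prod.fst h5) (show ¬ ((1 : Fin 2) = 0) by decide)
        · have h4 : p i = i := if_neg (by rw [hd]; exact show ¬ ((1 : Fin 2) = 0) by decide)
          rw [h4, hd]; rfl
      rw [Finset.sum_neg_distrib] at h3
      linarith
  -- the family of zero sum multisets
  choose! sd hsd1 hsd2 hsd3 using key
  have hIz : ∀ d, (I.filter (fun x => sd x = d)).card ≤ z d := by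
    intro d
    have := hz d ((I.filter (fun x => sd x = d)).val.map
      (fun x => ∑ i ∈ Finset.univ.filter (fun i => k' i = x), wf d (dl i))) ?_ ?_
    · rwa [Multiset.card_map] at this
    · intro M hM
      obtain ⟨x, hx, rfl⟩ := Multiset.mem_map.1 hM
      obtain ⟨hx, hxd⟩ := Finset.mem_filter.1 hx
      obtain ⟨i, hi, s, k, hd⟩ := hsd1 x hx
      refine ⟨?_, ?_⟩
      · intro h0
        rw [Finset.sum_eq_zero_iff] at h0
        have := h0 i (by simp [hi])
        rw [hd, hxd] at this
        simp [wf] at this
      · have h2 := hsd3 x hx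
        rw [hxd] at h2
        rw [← h2]
        exact map_sum Multiset.sumAddMonoidHom _ _
    · change ∑ x ∈ I.filter (fun x => sd x = d),
        ∑ i ∈ Finset.univ.filter (fun i => k' i = x), wf d (dl i) ≤ _
      have h1 : ∑ x ∈ I.filter (fun x => sd x = d),
          ∑ i ∈ Finset.univ.filter (fun i => k' i = x), wf d (dl i) =
          ∑ i ∈ Finset.univ.filter (fun i => k' i ∈ I.filter (fun x => sd x = d)), wf d (dl i) := by
        rw [← Finset.sum_fiberwise_of_maps_to
          (s := Finset.univ.filter (fun i => k' i ∈ I.filter (fun x => sd x = d)))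
          (t := I.filter (fun x => sd x = d)) (g := k') (fun i hi => (Finset.mem_filter.1 hi).2)]
        refine Finset.sum_congr rfl (fun x hx => ?_)
        refine Finset.sum_congr ?_ (fun _ _ => rfl)
        ext i
        simp only [Finset.mem_filter, Finset.mem_univ, true_and]
        have hx' := Finset.mem_filter.1 hx
        constructor
        · intro h; exact ⟨by rw [h]; exact hx', h⟩
        · intro h; exact h.2
      rw [h1]
      exact Finset.sum_le_sum_of_subset (Finset.filter_subset _ _)
  have hIsplit : I.card = (I.filter (fun x => sd x = false)).card +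
      (I.filter (fun x => sd x = true)).card := by
    rw [← Finset.card_filter_add_card_filter_not (fun x => sd x = false)]
    congr 2
    ext x
    simp
  have hz0 := hIz false
  have hz1 := hIz true
  -- counting
  have hKcard : Fintype.card K = (cols ((dec S).map letter) c).card := Fintype.card_coe _
  have hAA' : A.card = A'.card := by
    refine Finset.card_bij' (fun i _ => pi i) (fun i _ => pi i) ?_ ?_ ?_ ?_
    · intro i hi
      refine Finset.mem_filter.2 ⟨Finset.mem_univ _, ?_⟩
      rw [hpl, (Finset.mem_filter.1 hi).2]; rfl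
    · intro i hi
      refine Finset.mem_filter.2 ⟨Finset.mem_univ _, ?_⟩
      rw [hpl, (Finset.mem_filter.1 hi).2]; rfl
    · intro i _; exact hpi i
    · intro i _; exact hpi i
  have hcount : n = A.card + A'.card + 2 * S.length := by
    rw [← hwb, Finset.card_filter, Finset.card_filter, ← Finset.sum_add_distrib,
      ← Finset.sum_add_distrib]
    have : ∀ i : Fin n, ((if letter (dl i) = (0, true) then 1 else 0) +
        (if letter (dl i) = (0, false) then 1 else 0)) + wb (dec S)[i] = 1 := by
      intro i
      change ((if letter (dl i) = (0, true) then 1 else 0) +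
        (if letter (dl i) = (0, false) then 1 else 0)) + wb (dl i) = 1
      rcases dl i with ⟨d, f, _ | _, k⟩ | ⟨d⟩ <;> simp [letter, wb]
    rw [Finset.sum_congr rfl (fun i _ => this i)]
    simp
  omega

open H74CL (wd Bound)

/-- the lower bound for the genus of a two sided word -/
theorem lower (E : List (ℤ × ℤ)) (hE : E ≠ []) (h1 : ∀ t ∈ E, t.1 ≠ 0) (h2 : ∀ t ∈ E, t.2 ≠ 0)
    (g z0 z1 : ℕ) (hPC : PC g (wd E)) (hB0 : Bound (↑(E.map Prod.fst)) z0)
    (hB1 : Bound (↑(E.map Prod.snd)) z1) :
    E.length + 1 ≤ z0 + z1 + 2 * g := by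
  set S : List ((ℕ × Bool) × (ℕ × Bool)) :=
    E.map (fun t => ((t.1.natAbs - 1, decide (0 < t.1)), (t.2.natAbs - 1, decide (0 < t.2))))
    with hSdef
  have hS : S ≠ [] := by
    intro h
    exact hE (List.map_eq_nil_iff.1 h)
  have e0 : ∀ v : ℤ, v ≠ 0 → sgn (decide (0 < v)) * ((v.natAbs - 1 + 1 : ℕ) : ℤ) = v := by
    intro v h3
    have h4 : v.natAbs - 1 + 1 = v.natAbs := by omega
    rw [h4]
    by_cases h5 : 0 < v
    · rw [decide_eq_true h5]
      simp only [sgn, if_true, one_mul]
      omega
    · rw [decide_eq_false h5]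
      simp only [sgn, Bool.false_eq_true, if_false]
      omega
  have hmk : FreeGroup.mk ((dec S).map DL.letter) = wd E := by
    rw [mk_dec, wd, hSdef, List.map_map]
    congr 1
    refine List.map_congr_left (fun t ht => ?_)
    simp only [Function.comp_apply]
    rw [e0 _ (h1 t ht), e0 _ (h2 t ht)]
  have hgen : Gen ((dec S).map DL.letter) g := gen_of_PC hPC _ (red_dec S) hmk
  have hfst : S.map (ex false) = E.map Prod.fst := by
    rw [hSdef, List.map_map]
    refine List.map_congr_left (fun t ht => ?_)
    simp only [Function.comp_apply, ex, Bool.false_eq_true, if_false]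
    exact e0 _ (h1 t ht)
  have hsnd : S.map (ex true) = E.map Prod.snd := by
    rw [hSdef, List.map_map]
    refine List.map_congr_left (fun t ht => ?_)
    simp only [Function.comp_apply, ex, if_true]
    exact e0 _ (h2 t ht)
  have := lower_aux S hS g (fun d => if d then z1 else z0) hgen (by
    intro d F hF hF'
    cases d
    · exact hB0 F hF (by rw [hfst] at hF'; exact hF')
    · exact hB1 F hF (by rw [hsnd] at hF'; exact hF'))
  rw [hSdef, List.length_map] at this
  simpa using this

end H79CDE
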