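import Pool.Agent.Helper74.CL.Lower

/-!
Two sided words: the decorated words `∏ a^e b a^f b⁻¹` with `e, f ≠ 0` of any sign.
-/

set_option autoImplicit false

namespace H79CDE

open H74CL (il sgn ga gb)

/-- decorated letters: a letter of a run on side `d` (is it the first one of its run, its sign, and
the number of letters after it in the run), and the letter `b` (`d = false`) or `b⁻¹`
(`d = true`) which ends the runs of side `d` -/
inductive DL where
  | L (d f s : Bool) (k : ℕ) : DL
  | B (d : Bool) : DL
  deriving DecidableEq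

namespace DL

/-- the letter -/
def letter : DL → Fin 2 × Bool
  | L _ _ s _ => (0, s)
  | B d => (1, !d)

/-- what can follow what -/
def R : DL → DL → Prop
  | L d _ s (k + 1), v => v = L d false s k
  | L d _ _ 0, v => v = B d
  | B d, v => ∃ s k, v = L (!d) true s k

/-- the side -/
def side : DL → Bool
  | L d _ _ _ => d
  | B d => d

end DL

open DL

/-- the rest of a run -/
def run (d s : Bool) : ℕ → List DL
  | 0 => []
  | n + 1 => L d false s n :: run d s n

/-- half a block -/
def hb (d : Bool) (p : ℕ × Bool) : List DL := L d true p.2 p.1 :: (run d p.2 p.1 ++ [B d])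

/-- the decorated word of `a^(± (n + 1)) b a^(± (m + 1)) b⁻¹` -/
def blk (t : (ℕ × Bool) × (ℕ × Bool)) : List DL := hb false t.1 ++ hb true t.2

/-- the decorated word of a list of syllables -/
def dec (S : List ((ℕ × Bool) × (ℕ × Bool))) : List DL := S.flatMap blk

lemma isChain_cons' {l : List DL} {u v : DL} (h : R u v) (hl : (v :: l).IsChain R) :
    (u :: v :: l).IsChain R := List.isChain_cons_cons.2 ⟨h, hl⟩

lemma chain_run (d s f : Bool) (n : ℕ) :
    (L d f s n :: (run d s n ++ [B d])).IsChain R := by
  induction n generalizing f with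
  | zero => exact isChain_cons' rfl (List.isChain_singleton _)
  | succ n ih =>
    rw [run, List.cons_append]
    exact isChain_cons' rfl (ih false)

lemma chain_hb (d : Bool) (p : ℕ × Bool) : (hb d p).IsChain R := chain_run _ _ _ _

lemma hb_head (d : Bool) (p : ℕ × Bool) : (hb d p).head? = some (L d true p.2 p.1) := rfl

lemma hb_last (d : Bool) (p : ℕ × Bool) : (hb d p).getLast? = some (B d) := by
  have : hb d p = (L d true p.2 p.1 :: run d p.2 p.1) ++ [B d] := by simp [hb]
  rw [this, List.getLast?_append]
  simp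

lemma chain_blk (t : (ℕ × Bool) × (ℕ × Bool)) : (blk t).IsChain R := by
  rw [blk, List.isChain_append]
  refine ⟨chain_hb _ _, chain_hb _ _, ?_⟩
  intro x hx y hy
  rw [hb_last] at hx
  rw [hb_head] at hy
  simp only [Option.mem_def, Option.some.injEq] at hx hy
  subst hx hy
  exact ⟨_, _, rfl⟩

lemma blk_head (t : (ℕ × Bool) × (ℕ × Bool)) :
    (blk t).head? = some (L false true t.1.2 t.1.1) := rfl

lemma blk_last (t : (ℕ × Bool) × (ℕ × Bool)) : (blk t).getLast? = some (B true) := by
  rw [blk, List.getLast?_append, hb_last]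
  rfl

lemma dec_cons (t : (ℕ × Bool) × (ℕ × Bool)) (S : List ((ℕ × Bool) × (ℕ × Bool))) :
    dec (t :: S) = blk t ++ dec S := by
  simp [dec]

lemma dec_head (t : (ℕ × Bool) × (ℕ × Bool)) (S : List ((ℕ × Bool) × (ℕ × Bool))) :
    (dec (t :: S)).head? = some (L false true t.1.2 t.1.1) := rfl

lemma dec_last (S : List ((ℕ × Bool) × (ℕ × Bool))) (hS : S ≠ []) :
    (dec S).getLast? = some (B true) := by
  induction S with
  | nil => exact absurd rfl hS
  | cons t S ih =>
    rw [dec_cons, List.getLast?_append]
    by_cases h : S = []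
    · subst h
      simp [dec, blk_last]
    · rw [ih h]; rfl

lemma chain_dec (S : List ((ℕ × Bool) × (ℕ × Bool))) : (dec S).IsChain R := by
  induction S with
  | nil => exact List.isChain_nil
  | cons t S ih =>
    rw [dec_cons, List.isChain_append]
    refine ⟨chain_blk t, ih, ?_⟩
    intro x hx y hy
    rw [blk_last] at hx
    simp only [Option.mem_def, Option.some.injEq] at hx
    subst hx
    cases S with
    | nil => simp [dec] at hy
    | cons t' S =>
      rw [dec_head] at hy
      simp only [Option.mem_def, Option.some.injEq] at hy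
      subst hy
      exact ⟨_, _, rfl⟩

/-- the word is freely reduced -/
lemma red_dec (S : List ((ℕ × Bool) × (ℕ × Bool))) :
    FreeGroup.IsReduced ((dec S).map letter) := by
  unfold FreeGroup.IsReduced
  rw [List.isChain_map]
  refine (chain_dec S).imp ?_
  intro u v h
  rcases u with ⟨d, f, s, _ | k⟩ | ⟨d⟩
  · have h : v = B d := h
    subst h
    intro h; exact absurd h (show ¬ ((0 : Fin 2) = 1) by decide)
  · have h : v = L d false s k := h
    subst h
    intro _; rfl
  · obtain ⟨s, k, rfl⟩ : ∃ s k, v = L (!d) true s k := h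
    intro h; exact absurd h (show ¬ ((1 : Fin 2) = 0) by decide)

lemma map_run (d s : Bool) (n : ℕ) : (run d s n).map letter = List.replicate n (0, s) := by
  induction n with
  | zero => rfl
  | succ n ih => rw [run, List.map_cons, ih, List.replicate_succ]; rfl

lemma mk_hb (d : Bool) (p : ℕ × Bool) : FreeGroup.mk ((hb d p).map letter) =
    ga ^ (sgn p.2 * ((p.1 + 1 : ℕ) : ℤ)) * FreeGroup.mk [((1 : Fin 2), !d)] := by
  obtain ⟨n, s⟩ := p
  have h1 : (hb d (n, s)).map letter = List.replicate (n + 1) (0, s) ++ [(1, !d)] := by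
    simp only [hb, List.map_cons, List.map_append, map_run]
    rfl
  rw [h1, ← FreeGroup.mul_mk, H74CL.mk_replicate]
  rfl

lemma mk_blk (t : (ℕ × Bool) × (ℕ × Bool)) : FreeGroup.mk ((blk t).map letter) =
    ga ^ (sgn t.1.2 * ((t.1.1 + 1 : ℕ) : ℤ)) *
      (gb * ga * gb⁻¹) ^ (sgn t.2.2 * ((t.2.1 + 1 : ℕ) : ℤ)) := by
  rw [blk, List.map_append, ← FreeGroup.mul_mk, mk_hb, mk_hb, conj_zpow]
  have h2 : FreeGroup.mk [((1 : Fin 2), !false)] = gb := rfl
  have h3 : FreeGroup.mk [((1 : Fin 2), !true)] = gb⁻¹ := rfl
  rw [h2, h3]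
  simp only [mul_assoc]

lemma mk_dec (S : List ((ℕ × Bool) × (ℕ × Bool))) : FreeGroup.mk ((dec S).map letter) =
    (S.map (fun t => ga ^ (sgn t.1.2 * ((t.1.1 + 1 : ℕ) : ℤ)) *
      (gb * ga * gb⁻¹) ^ (sgn t.2.2 * ((t.2.1 + 1 : ℕ) : ℤ)))).prod := by
  induction S with
  | nil => rfl
  | cons t S ih =>
    rw [dec_cons, List.map_append, ← FreeGroup.mul_mk, ih, mk_blk, List.map_cons, List.prod_cons]

/-- weight: letters `b^±1` -/
def wb (u : DL) : ℕ := if (letter u).1 = 1 then 1 else 0

/-- the exponent of a run on side `d`, at its first letter -/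
def wf (d : Bool) : DL → Multiset ℤ
  | L d' true s k => if d' = d then {sgn s * ((k + 1 : ℕ) : ℤ)} else 0
  | _ => 0

/-- the exponents on side `d` -/
def ex (d : Bool) (t : (ℕ × Bool) × (ℕ × Bool)) : ℤ :=
  if d then sgn t.2.2 * ((t.2.1 + 1 : ℕ) : ℤ) else sgn t.1.2 * ((t.1.1 + 1 : ℕ) : ℤ)

lemma sum_run {M : Type*} [AddCommMonoid M] (f : DL → M) (d s : Bool)
    (h : ∀ k, f (L d false s k) = 0) (n : ℕ) : ((run d s n).map f).sum = 0 := by
  induction n with
  | zero => rfl
  | succ n ih => rw [run, List.map_cons, List.sum_cons, ih, h, add_zero]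

lemma sum_wb_hb (d : Bool) (p : ℕ × Bool) : ((hb d p).map wb).sum = 1 := by
  simp only [hb, List.map_cons, List.map_append, List.sum_cons, List.sum_append, List.map_nil,
    List.sum_nil]
  rw [sum_run wb _ _ (fun k => rfl)]
  rfl

lemma sum_wb (S : List ((ℕ × Bool) × (ℕ × Bool))) : ((dec S).map wb).sum = 2 * S.length := by
  induction S with
  | nil => rfl
  | cons t S ih =>
    rw [dec_cons, List.map_append, List.sum_append, ih, blk, List.map_append, List.sum_append,
      sum_wb_hb, sum_wb_hb, List.length_cons]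
    ring

lemma sum_wf_hb (d d' : Bool) (p : ℕ × Bool) :
    ((hb d' p).map (wf d)).sum = if d' = d then {sgn p.2 * ((p.1 + 1 : ℕ) : ℤ)} else 0 := by
  simp only [hb, List.map_cons, List.map_append, List.sum_cons, List.sum_append, List.map_nil,
    List.sum_nil]
  rw [sum_run (wf d) _ _ (fun k => rfl)]
  simp [wf]

lemma sum_wf_blk (d : Bool) (t : (ℕ × Bool) × (ℕ × Bool)) :
    ((blk t).map (wf d)).sum = {ex d t} := by
  rw [blk, List.map_append, List.sum_append, sum_wf_hb, sum_wf_hb]
  cases d <;> simp [ex]

lemma sum_wf (d : Bool) (S : List ((ℕ × Bool) × (ℕ × Bool))) :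
    ((dec S).map (wf d)).sum = ↑(S.map (ex d)) := by
  induction S with
  | nil => rfl
  | cons t S ih =>
    rw [dec_cons, List.map_append, List.sum_append, ih, sum_wf_blk, List.map_cons,
      ← Multiset.cons_coe, Multiset.singleton_add]

/-- the cyclic successor relation -/
lemma cyc_R (S : List ((ℕ × Bool) × (ℕ × Bool))) (hS : S ≠ []) (i : ℕ) (hi : i < (dec S).length)
    (j : ℕ) (hj : j < (dec S).length) (hij : j = (i + 1) % (dec S).length) :
    R (dec S)[i] (dec S)[j] := by
  by_cases h : i + 1 < (dec S).length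
  · rw [Nat.mod_eq_of_lt h] at hij
    subst hij
    exact List.isChain_iff_getElem.1 (chain_dec S) i h
  · have h1 : i + 1 = (dec S).length := by omega
    rw [h1, Nat.mod_self] at hij
    subst hij
    cases S with
    | nil => exact absurd rfl hS
    | cons t S =>
      have h2 : (dec (t :: S))[0] = L false true t.1.2 t.1.1 := rfl
      have h3 : (dec (t :: S))[i] = B true := by
        have := dec_last (t :: S) hS
        rw [List.getLast?_eq_getElem?] at this
        have h4 : (dec (t :: S)).length - 1 = i := by omega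
        rw [h4, List.getElem?_eq_getElem hi] at this
        exact Option.some.inj this
      rw [h2, h3]
      exact ⟨_, _, rfl⟩

end H79CDE
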